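import Pool.Agent.H253.ME.WB

/-! `S_wienA` (project ME of helper121): the Wiener type theorem with a weight
(generalization of `Pool/Agent/H717/Z987/Wien.lean`). -/

set_option autoImplicit false

open scoped BigOperators InnerProductSpace Topology ENNReal
open Filter MeasureTheory

namespace Pool.Agent.H253.ME

open Pool.Agent.Y662.TR (LL dv inner_dv ll_sum ll_summable qk_po)
open Pool.Agent.TH369.AN (Rz)
open Pool.Agent.TH369.MU (SpM ep zk qk spm_exists)
open Pool.Agent.H987.Z
open Pool.Agent.TH794.LL2 (Po)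
open Pool.Agent.H121.ME (Qw Tw S_wienA)
open Pool.Agent.H717.Z987 (zk_im spm_Fm pol gr_sum gr_meas pt_bd kp kp_ne kp_cont2 kp_cont_E kp_cont_t kp_sq kp_le Fm kp_int Fm_le Fm_meas ep_pos' ep_lim fin_atoms Fm_atom)

variable {ι : Type} {w : ℝ → ℝ}

/-- splitting of the sum -/
theorem split (hw : Wc w) (T : LL ι →L[ℂ] LL ι) (hT : Rs T) (y : ι) (m : Measure ℝ)
    (hm : SpM T (dv y) m) (F : Finset ι) (k : ℕ) :
    ENNReal.ofReal (∫ E, Po m E (ep k) ∂(Qw w)) =
      ENNReal.ofReal (∑ x ∈ F, ∫ E, ep k * ‖Gr T (zk E k) x y‖ ^ 2 ∂(Qw w)) + Tw w T y F k := by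
  have := hm.1
  have hnn : ∀ x E, 0 ≤ ep k * ‖Gr T (zk E k) x y‖ ^ 2 :=
    fun x E => mul_nonneg (ep_pos' k).le (sq_nonneg _)
  have hPint := (Po_Qw hw m).1 k
  rw [ofReal_integral_eq_lintegral_ofReal hPint (Eventually.of_forall fun E =>
    Pool.Agent.Y662.TR.po_nonneg m E (ep k) (ep_pos' k))]
  have hle : ∀ x E, ep k * ‖Gr T (zk E k) x y‖ ^ 2 ≤ Po m E (ep k) := by
    intro x E
    have := sum_le_hasSum {x} (fun x _ => hnn x E) (gr_sum T hT.sa y m hm E k)
    simpa using this
  have hint : ∀ x, Integrable (fun E => ep k * ‖Gr T (zk E k) x y‖ ^ 2) (Qw w) := by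
    intro x
    refine hPint.mono' (gr_meas T hT x y k).aestronglyMeasurable (Eventually.of_forall fun E => ?_)
    rw [Real.norm_of_nonneg (hnn x E)]
    exact hle x E
  have h1 : ∀ E, ENNReal.ofReal (Po m E (ep k)) =
      (∑ x ∈ F, ENNReal.ofReal (ep k * ‖Gr T (zk E k) x y‖ ^ 2)) +
        ∑' x : {x : ι // x ∉ F}, ENNReal.ofReal (ep k * ‖Gr T (zk E k) x y‖ ^ 2) := by
    intro E
    have hs := gr_sum T hT.sa y m hm E k
    rw [← hs.tsum_eq, ENNReal.ofReal_tsum_of_nonneg (fun x => hnn x E) hs.summable]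
    rw [← ENNReal.summable.tsum_add_tsum_compl (s := (F : Set ι)) ENNReal.summable]
    congr 1
    rw [Finset.tsum_subtype' F (fun x => ENNReal.ofReal (ep k * ‖Gr T (zk E k) x y‖ ^ 2))]
  rw [lintegral_congr h1, lintegral_add_left (Finset.measurable_sum F fun x _ =>
    (gr_meas T hT x y k).ennreal_ofReal)]
  congr 1
  rw [lintegral_finsetSum F fun x _ => (gr_meas T hT x y k).ennreal_ofReal,
    ENNReal.ofReal_sum_of_nonneg fun x _ => integral_nonneg fun E => hnn x E]
  refine Finset.sum_congr rfl fun x _ => ?_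
  rw [ofReal_integral_eq_lintegral_ofReal (hint x) (Eventually.of_forall fun E => hnn x E)]

/-- **L3**, the Wiener type theorem -/
theorem wienA : S_wienA := by
  intro w hc hnn hle ι _ T hT y htight m hm
  have hw : Wc w := ⟨hc, hnn, hle⟩
  have := hm.1
  choose mp hp hpu using fun x => spm_exists T hT.sa (dv x + dv y)
  choose mn hn hnu using fun x => spm_exists T hT.sa (dv x - dv y)
  obtain ⟨D, hDdef⟩ : ∃ D : Set ℝ, D = ({t | m {t} ≠ 0} ∪ (⋃ x, {t | mp x {t} ≠ 0})) ∪
      ⋃ x, {t | mn x {t} ≠ 0} := ⟨_, rfl⟩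
  have hD : D.Countable := by
    rw [hDdef]
    refine ((fin_atoms m).union (Set.countable_iUnion fun x => ?_)).union
      (Set.countable_iUnion fun x => ?_)
    · have := (hp x).1
      exact fin_atoms (mp x)
    · have := (hn x).1
      exact fin_atoms (mn x)
  have hmD : ∀ t, t ∉ D → m {t} = 0 := by
    intro t ht
    by_contra h
    exact ht (by rw [hDdef]; exact Or.inl (Or.inl h))
  have hpD : ∀ x t, t ∉ D → mp x {t} = 0 := by
    intro x t ht
    by_contra h
    exact ht (by rw [hDdef]; exact Or.inl (Or.inr (Set.mem_iUnion.2 ⟨x, h⟩)))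
  have hnD : ∀ x t, t ∉ D → mn x {t} = 0 := by
    intro x t ht
    by_contra h
    exact ht (by rw [hDdef]; exact Or.inr (Set.mem_iUnion.2 ⟨x, h⟩))
  refine ⟨D, hD, ?_⟩
  -- the summable families
  have hwm : Summable fun t : D => w t * m.real {(t : ℝ)} := by
    have h1 := watoms hw m (m + Measure.dirac 0) D hD
    have := hD.to_subtype
    have hs : Summable fun t : D => m.real {(t : ℝ)} := by
      have hs : (∑' t : D, m {(t : ℝ)}) ≠ ∞ := by
        have := measure_iUnion (μ := m) (f := fun t : D => {(t : ℝ)})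
          (fun a b hab => by
            simp only [Function.onFun, Set.disjoint_singleton]
            exact fun h => hab (Subtype.ext h)) (fun t => measurableSet_singleton _)
        rw [← this]
        exact measure_ne_top _ _
      exact ENNReal.summable_toReal hs
    refine Summable.of_nonneg_of_le (fun t => mul_nonneg (hw.nn _) measureReal_nonneg)
      (fun t => ?_) hs
    have h2 := hw.le1 (t : ℝ)
    have h3 : 0 ≤ m.real {(t : ℝ)} := measureReal_nonneg
    nlinarith
  have hwi : Integrable w m := by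
    refine Integrable.of_bound (C := 1) hw.c.aestronglyMeasurable (Eventually.of_forall fun E => ?_)
    rw [Real.norm_of_nonneg (hw.nn E)]
    exact hw.le1 E
  have hsumD : ∑' t : D, w t * m.real {(t : ℝ)} = ∫ t in D, w t ∂m := by
    rw [setIntegral_countable _ hD hwi.integrableOn]
    refine tsum_congr fun t => ?_
    rw [smul_eq_mul]
    ring
  have hdsum : ∀ x, Summable fun t : D => w t * ((mp x).real {(t : ℝ)} - (mn x).real {(t : ℝ)}) ^ 2 := by
    intro x
    have := (hp x).1
    have := (hn x).1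
    have s1 := watoms hw (mp x) (mp x) D hD
    have s2 := watoms hw (mp x) (mn x) D hD
    have s4 := watoms hw (mn x) (mn x) D hD
    refine ((s1.sub (s2.mul_left 2)).add s4).congr fun t => ?_
    ring
  -- the main inequality
  have key : ∀ δ : ℝ, 0 < δ → ∫ t, Real.pi * w t ∂m ≤ Real.pi * (∫ t in D, w t ∂m) + 2 * δ := by
    intro δ hδ
    obtain ⟨F, hF⟩ := htight (ENNReal.ofReal δ) (ENNReal.ofReal_pos.2 hδ)
    have hlt : liminf (fun k => Tw w T y F k) atTop < ENNReal.ofReal (2 * δ) :=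
      hF.trans_lt ((ENNReal.ofReal_lt_ofReal_iff (by linarith)).2 (by linarith))
    have hfr := frequently_lt_of_liminf_lt (by isBoundedDefault) hlt
    have hlim1 := (Po_Qw hw m).2
    have hlim2 : Tendsto (fun k => (∑ x ∈ F, ∫ E, ep k * ‖Gr T (zk E k) x y‖ ^ 2 ∂(Qw w)) + 2 * δ) atTop
        (𝓝 ((∑ x ∈ F, 1 / 16 * (Real.pi * ∑' t : D, w t *
          ((mp x).real {(t : ℝ)} - (mn x).real {(t : ℝ)}) ^ 2)) + 2 * δ)) := by
      refine Tendsto.add_const _ (tendsto_finsetSum _ fun x _ => ?_)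
      have := (hp x).1
      have := (hn x).1
      have e := (wdiff_lim hw (mp x) (mn x) D hD (hpD x) (hnD x)).const_mul (1 / 16)
      refine e.congr fun k => ?_
      rw [← integral_const_mul]
      refine integral_congr_ae (Eventually.of_forall fun E => ?_)
      simp only
      rw [← pol T hT x y (mp x) (mn x) (hp x) (hn x) E k, norm_mul]
      norm_num
      ring
    have hfr2 : ∃ᶠ k in atTop, ∫ E, Po m E (ep k) ∂(Qw w) ≤
        (∑ x ∈ F, ∫ E, ep k * ‖Gr T (zk E k) x y‖ ^ 2 ∂(Qw w)) + 2 * δ := by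
      refine hfr.mono fun k hk => ?_
      have hS : 0 ≤ ∑ x ∈ F, ∫ E, ep k * ‖Gr T (zk E k) x y‖ ^ 2 ∂(Qw w) :=
        Finset.sum_nonneg fun x _ => integral_nonneg fun E =>
          mul_nonneg (ep_pos' k).le (sq_nonneg _)
      have h1 := split hw T hT y m hm F k
      have h2 : ENNReal.ofReal (∫ E, Po m E (ep k) ∂(Qw w)) ≤
          ENNReal.ofReal ((∑ x ∈ F, ∫ E, ep k * ‖Gr T (zk E k) x y‖ ^ 2 ∂(Qw w)) + 2 * δ) := by
        rw [h1, ENNReal.ofReal_add hS (by linarith)]
        exact add_le_add le_rfl hk.le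
      exact (ENNReal.ofReal_le_ofReal_iff (by linarith)).1 h2
    have hle := le_of_tendsto_of_tendsto_of_frequently hlim1 hlim2 hfr2
    refine hle.trans (add_le_add ?_ le_rfl)
    rw [← hsumD]
    have e1 : ∑ x ∈ F, 1 / 16 * (Real.pi * ∑' t : D, w t *
        ((mp x).real {(t : ℝ)} - (mn x).real {(t : ℝ)}) ^ 2) =
        Real.pi * ∑' t : D, ∑ x ∈ F, (1 / 16 * (w t *
        ((mp x).real {(t : ℝ)} - (mn x).real {(t : ℝ)}) ^ 2)) := by
      rw [Summable.tsum_finsetSum fun x _ => (hdsum x).mul_left (1 / 16), Finset.mul_sum]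
      refine Finset.sum_congr rfl fun x _ => ?_
      rw [tsum_mul_left]
      ring
    rw [e1]
    refine mul_le_mul_of_nonneg_left ?_ Real.pi_pos.le
    refine Summable.tsum_le_tsum (fun t => ?_)
      (summable_sum fun x _ => (hdsum x).mul_left (1 / 16)) hwm
    have := pt_bd T hT y m hm mp mn hp hn F t
    calc ∑ x ∈ F, 1 / 16 * (w t * ((mp x).real {(t : ℝ)} - (mn x).real {(t : ℝ)}) ^ 2)
        = w t * ∑ x ∈ F, ((mp x).real {(t : ℝ)} - (mn x).real {(t : ℝ)}) ^ 2 / 16 := by
          rw [Finset.mul_sum]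
          refine Finset.sum_congr rfl fun x _ => ?_
          ring
      _ ≤ w t * m.real {(t : ℝ)} := mul_le_mul_of_nonneg_left this (hw.nn _)
  -- conclusion
  have h1 : ∫ t, Real.pi * w t ∂m ≤ Real.pi * (∫ t in D, w t ∂m) := by
    refine le_of_forall_pos_le_add fun δ hδ => ?_
    have := key (δ / 2) (by linarith)
    linarith
  rw [integral_const_mul] at h1
  have h2 : ∫ t, w t ∂m ≤ ∫ t in D, w t ∂m := le_of_mul_le_mul_left h1 Real.pi_pos
  have h3 := integral_add_compl hD.measurableSet hwi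
  have h4 : ∫ t in Dᶜ, w t ∂m = 0 := by
    refine le_antisymm (by linarith) (integral_nonneg fun t => (hw.nn t))
  have h5 := (setIntegral_eq_zero_iff_of_nonneg_ae
    (Eventually.of_forall fun t => (hw.nn t)) hwi.integrableOn).1 h4
  have h6 : m.restrict Dᶜ {E | 0 < w E} = 0 := by
    refine measure_mono_null (fun t ht => ?_) (ae_iff.1 h5)
    exact (ne_of_gt ht : w t ≠ 0)
  rwa [Measure.restrict_apply' hD.measurableSet.compl, ← Set.sdiff_eq] at h6

end Pool.Agent.H253.ME
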