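import Pool.Agent.H500.ME.Stm

/-!
# Project ME (helper500), part B4: no imaginary twist

If the values of an algebraic Hecke character, divided by `N(w)^(m/2)`, are `N(w)^(iτ)` at almost all
places then `τ = 0`: evaluate at the rational integers `a ≡ 1`.
-/

set_option autoImplicit false
set_option linter.unusedSectionVars false

namespace Pool.Agent.H253.ME.NIT

open NumberField IsDedekindDomain Filter Topology
open Pool.Agent.H500.HC (QBar)
open Pool.Agent.Q92.AR (Dv Ray prin prin_apply Cong Pos)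
open Pool.Agent.H500.ME (typU IsAlg at1)

section
variable {K : Type} [Field K] [NumberField K]

/-- the divisor of an ideal -/
noncomputable def dv (𝔞 : Ideal (𝓞 K)) : Dv K :=
  Finsupp.ofSupportFinite
    (fun v => FractionalIdeal.count K v
      (𝔞 : FractionalIdeal (nonZeroDivisors (𝓞 K)) K))
    (by
      have h := FractionalIdeal.finite_factors (K := K)
        (𝔞 : FractionalIdeal (nonZeroDivisors (𝓞 K)) K)
      rw [Filter.eventually_cofinite] at h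
      exact h)

theorem dv_apply (𝔞 : Ideal (𝓞 K)) (v : HeightOneSpectrum (𝓞 K)) : dv 𝔞 v =
    FractionalIdeal.count K v (𝔞 : FractionalIdeal (nonZeroDivisors (𝓞 K)) K) := rfl

theorem dv_mul {𝔞 𝔟 : Ideal (𝓞 K)} (ha : 𝔞 ≠ ⊥) (hb : 𝔟 ≠ ⊥) : dv (𝔞 * 𝔟) = dv 𝔞 + dv 𝔟 := by
  ext v
  rw [Finsupp.add_apply, dv_apply, dv_apply, dv_apply, FractionalIdeal.coeIdeal_mul,
    FractionalIdeal.count_mul]
  · exact FractionalIdeal.coeIdeal_ne_zero.2 ha
  · exact FractionalIdeal.coeIdeal_ne_zero.2 hb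

theorem dv_one : dv (1 : Ideal (𝓞 K)) = 0 := by
  ext v
  rw [dv_apply, Finsupp.zero_apply, Ideal.one_eq_top, FractionalIdeal.coeIdeal_top,
    FractionalIdeal.count_one]

theorem dv_prime (v : HeightOneSpectrum (𝓞 K)) : dv v.asIdeal = Finsupp.single v 1 := by
  classical
  ext w
  rw [dv_apply, FractionalIdeal.count_maximal, Finsupp.single_apply]

theorem dv_span {x : 𝓞 K} (x' : Kˣ) (hx : (x' : K) = (x : K)) :
    dv (Ideal.span {x}) = prin x' := by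
  ext v
  rw [dv_apply, prin_apply, FractionalIdeal.coeIdeal_span_singleton, hx]

/-- the value of the character at an ideal whose prime divisors are good -/
theorem val_ideal (φ : Dv K →+ Additive QBarˣ) (j : QBar →+* ℂ) (c : ℂ) (I : Ideal (𝓞 K)) :
    I ≠ ⊥ → (∀ w : HeightOneSpectrum (𝓞 K), I ≤ w.asIdeal →
      j (at1 φ w) = ((Ideal.absNorm w.asIdeal : ℕ) : ℂ) ^ c) →
    j (((φ (dv I)).toMul : QBarˣ) : QBar) = ((Ideal.absNorm I : ℕ) : ℂ) ^ c := by
  induction I using UniqueFactorizationMonoid.induction_on_prime with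
  | h₁ => exact fun h => absurd rfl h
  | h₂ I hI =>
    intro _ _
    rw [Ideal.isUnit_iff.1 hI, ← Ideal.one_eq_top, dv_one, map_zero, toMul_zero, Units.val_one,
      map_one, map_one, Nat.cast_one, Complex.one_cpow]
  | h₃ I P hI hP ih =>
    intro _ hw
    have hI' : I ≠ ⊥ := hI
    have hP' : P ≠ ⊥ := hP.ne_zero
    let w : HeightOneSpectrum (𝓞 K) := ⟨P, Ideal.isPrime_of_prime hP, hP'⟩
    have h1 := ih hI' fun v hv => hw v (Ideal.mul_le_right.trans hv)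
    have h2 := hw w Ideal.mul_le_left
    have h3 : dv P = Finsupp.single w 1 := dv_prime w
    rw [dv_mul hP' hI', map_add, toMul_add, Units.val_mul, map_mul, h1, h3, map_mul,
      Nat.cast_mul, Complex.natCast_mul_natCast_cpow]
    exact congrArg (· * _) h2

/-- the value at a rational integer -/
theorem val_nat (φ : Dv K →+ Additive QBarˣ) (j : QBar →+* ℂ) (t : (K →+* QBar) → ℤ) (M : ℕ)
    (ha : IsAlg M t φ) (c : ℂ) (a : ℕ) (ha0 : a ≠ 0) (hM : ∃ b : ℕ, a = 1 + M * b)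
    (hw : ∀ w : HeightOneSpectrum (𝓞 K), (a : 𝓞 K) ∈ w.asIdeal →
      j (at1 φ w) = ((Ideal.absNorm w.asIdeal : ℕ) : ℂ) ^ c) :
    ((∏ σ : K →+* QBar, (a : ℝ) ^ t σ : ℝ) : ℂ) =
      ((a ^ Module.finrank ℤ (𝓞 K) : ℕ) : ℂ) ^ c := by
  have haK : (a : K) ≠ 0 := Nat.cast_ne_zero.2 ha0
  have haO : (a : 𝓞 K) ≠ 0 := Nat.cast_ne_zero.2 ha0
  obtain ⟨b, hb⟩ := hM
  have hR : Units.mk0 (a : K) haK ∈ Ray K M := by
    refine ⟨?_, ?_⟩
    · intro v hv
      have h1 : ((Units.mk0 (a : K) haK : Kˣ) : K) - 1 = (M : K) * (b : K) := by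
        rw [Units.val_mk0, hb]
        push_cast
        ring
      have h2 : v.valuation K (b : K) ≤ 1 := by
        have h3 := v.valuation_le_one (K := K) (b : 𝓞 K)
        simpa using h3
      rw [h1, map_mul]
      exact mul_le_of_le_one_right' h2
    · intro f
      rw [Units.val_mk0, map_natCast]
      exact Nat.cast_pos.2 (Nat.pos_of_ne_zero ha0)
  have h1 := ha _ hR
  have h2 : dv (Ideal.span {(a : 𝓞 K)}) = prin (Units.mk0 (a : K) haK) :=
    dv_span _ (by rw [Units.val_mk0]; simp)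
  have h3 := val_ideal φ j c (Ideal.span {(a : 𝓞 K)}) (by
      rw [Ne, Ideal.span_singleton_eq_bot]; exact haO) fun w hle =>
      hw w (hle (Ideal.mem_span_singleton_self _))
  have h4 : Ideal.absNorm (Ideal.span {(a : 𝓞 K)}) = a ^ Module.finrank ℤ (𝓞 K) := by
    rw [Ideal.absNorm_span_singleton]
    have h5 : (a : 𝓞 K) = algebraMap ℤ (𝓞 K) (a : ℤ) := by simp
    rw [h5, Algebra.norm_algebraMap, Int.natAbs_pow, Int.natAbs_natCast]
  rw [h2, h1, h4, toMul_ofMul] at h3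
  rw [← h3]
  unfold typU
  rw [Units.coe_prod, map_prod, Complex.ofReal_prod]
  refine Finset.prod_congr rfl fun σ _ => ?_
  rw [Units.val_zpow_eq_zpow_val, map_zpow₀, Units.coe_map, Units.val_mk0]
  simp

/-- the angle -/
theorem angle (φ : Dv K →+ Additive QBarˣ) (j : QBar →+* ℂ) (t : (K →+* QBar) → ℤ) (M : ℕ)
    (ha : IsAlg M t φ) (r τ : ℝ) (a : ℕ) (ha0 : a ≠ 0) (hM : ∃ b : ℕ, a = 1 + M * b)
    (hw : ∀ w : HeightOneSpectrum (𝓞 K), (a : 𝓞 K) ∈ w.asIdeal →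
      j (at1 φ w) = ((Ideal.absNorm w.asIdeal : ℕ) : ℂ) ^ ((r : ℂ) + (τ : ℂ) * Complex.I)) :
    ∃ n : ℤ, τ * (Module.finrank ℤ (𝓞 K) * Real.log a) = n * (2 * Real.pi) := by
  have h1 := val_nat φ j t M ha _ a ha0 hM hw
  have haR : (0 : ℝ) < a := Nat.cast_pos.2 (Nat.pos_of_ne_zero ha0)
  have hN0 : ((a ^ Module.finrank ℤ (𝓞 K) : ℕ) : ℂ) ≠ 0 :=
    Nat.cast_ne_zero.2 (pow_ne_zero _ ha0)
  have hN : (0 : ℝ) < ((a ^ Module.finrank ℤ (𝓞 K) : ℕ) : ℝ) :=
    Nat.cast_pos.2 (pow_pos (Nat.pos_of_ne_zero ha0) _)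
  rw [Complex.cpow_add _ _ hN0] at h1
  have h2 : ((a ^ Module.finrank ℤ (𝓞 K) : ℕ) : ℂ) ^ (r : ℂ) =
      ((((a ^ Module.finrank ℤ (𝓞 K) : ℕ) : ℝ) ^ r : ℝ) : ℂ) := by
    rw [Complex.ofReal_cpow hN.le, Complex.ofReal_natCast]
  have h3 : ((a ^ Module.finrank ℤ (𝓞 K) : ℕ) : ℂ) ^ ((τ : ℂ) * Complex.I) =
      Complex.exp ((τ * (Module.finrank ℤ (𝓞 K) * Real.log a) : ℝ) * Complex.I) := by
    rw [Complex.cpow_def_of_ne_zero hN0, ← Complex.ofReal_natCast, ← Complex.ofReal_log hN.le,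
      Nat.cast_pow, Real.log_pow]
    congr 1
    push_cast
    ring
  rw [h2, h3] at h1
  set P : ℝ := ∏ σ : K →+* QBar, (a : ℝ) ^ t σ with hP
  set B : ℝ := ((a ^ Module.finrank ℤ (𝓞 K) : ℕ) : ℝ) ^ r with hB
  have hP0 : 0 < P := Finset.prod_pos fun σ _ => zpow_pos haR _
  have hB0 : 0 < B := Real.rpow_pos_of_pos hN _
  have h4 : P = B := by
    have h5 := congrArg norm h1
    rw [norm_mul, Complex.norm_exp_ofReal_mul_I, mul_one, Complex.norm_real, Complex.norm_real,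
      Real.norm_of_nonneg hP0.le, Real.norm_of_nonneg hB0.le] at h5
    exact h5
  rw [h4] at h1
  have hBC : (B : ℂ) ≠ 0 := Complex.ofReal_ne_zero.2 hB0.ne'
  have h6 : Complex.exp ((τ * (Module.finrank ℤ (𝓞 K) * Real.log a) : ℝ) * Complex.I) = 1 :=
    mul_left_cancel₀ hBC (by rw [← h1, mul_one])
  obtain ⟨n, hn⟩ := Complex.exp_eq_one_iff.1 h6
  refine ⟨n, ?_⟩
  have h7 : ((τ * (Module.finrank ℤ (𝓞 K) * Real.log a) : ℝ) : ℂ) =
      ((n * (2 * Real.pi) : ℝ) : ℂ) := by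
    have h8 : ((τ * (Module.finrank ℤ (𝓞 K) * Real.log a) : ℝ) : ℂ) * Complex.I =
        ((n * (2 * Real.pi) : ℝ) : ℂ) * Complex.I := by
      rw [hn]
      push_cast
      ring
    exact mul_right_cancel₀ Complex.I_ne_zero h8
  exact_mod_cast h7

end

/-- the arithmetic at the end -/
theorem arith (x : ℝ) (q : ℕ) (hq : 0 < q) (n n' : ℤ)
    (h : x * Real.log ((1 + q : ℕ) : ℝ) = n * (2 * Real.pi))
    (h' : x * Real.log ((1 + q * (1 + q) : ℕ) : ℝ) = n' * (2 * Real.pi)) : x = 0 := by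
  by_contra hx
  have hpi : (0 : ℝ) < 2 * Real.pi := by positivity
  have hl : 0 < Real.log ((1 + q : ℕ) : ℝ) := Real.log_pos (by
    have : (1 : ℝ) < ((1 + q : ℕ) : ℝ) := by exact_mod_cast (by omega : 1 < 1 + q)
    exact this)
  have hl' : 0 < Real.log ((1 + q * (1 + q) : ℕ) : ℝ) := Real.log_pos (by
    have h0 : 0 < q * (1 + q) := Nat.mul_pos hq (by omega)
    have : (1 : ℝ) < ((1 + q * (1 + q) : ℕ) : ℝ) := by
      exact_mod_cast (by omega : 1 < 1 + q * (1 + q))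
    exact this)
  have hn : n ≠ 0 := by
    rintro rfl
    rw [Int.cast_zero, zero_mul] at h
    exact (mul_ne_zero hx hl.ne') h
  have hn' : n' ≠ 0 := by
    rintro rfl
    rw [Int.cast_zero, zero_mul] at h'
    exact (mul_ne_zero hx hl'.ne') h'
  have h1 : (n' : ℝ) * Real.log ((1 + q : ℕ) : ℝ) = n * Real.log ((1 + q * (1 + q) : ℕ) : ℝ) := by
    have h2 : (x * (2 * Real.pi)) * ((n' : ℝ) * Real.log ((1 + q : ℕ) : ℝ)) =
        (x * (2 * Real.pi)) * (n * Real.log ((1 + q * (1 + q) : ℕ) : ℝ)) := by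
      calc (x * (2 * Real.pi)) * ((n' : ℝ) * Real.log ((1 + q : ℕ) : ℝ))
          = (n' * (2 * Real.pi)) * (x * Real.log ((1 + q : ℕ) : ℝ)) := by ring
        _ = (x * Real.log ((1 + q * (1 + q) : ℕ) : ℝ)) * (n * (2 * Real.pi)) := by rw [h, h']
        _ = _ := by ring
    exact mul_left_cancel₀ (mul_ne_zero hx hpi.ne') h2
  have h3 : (n'.natAbs : ℝ) * Real.log ((1 + q : ℕ) : ℝ) =
      (n.natAbs : ℝ) * Real.log ((1 + q * (1 + q) : ℕ) : ℝ) := by
    have h4 := congrArg abs h1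
    rw [abs_mul, abs_mul, abs_of_pos hl, abs_of_pos hl'] at h4
    rw [Nat.cast_natAbs, Nat.cast_natAbs, Int.cast_abs, Int.cast_abs]
    exact h4
  have h5 : (1 + q) ^ n'.natAbs = (1 + q * (1 + q)) ^ n.natAbs := by
    have h6 : Real.log (((1 + q : ℕ) : ℝ) ^ n'.natAbs) =
        Real.log (((1 + q * (1 + q) : ℕ) : ℝ) ^ n.natAbs) := by
      rw [Real.log_pow, Real.log_pow]
      exact h3
    have h7 : ((1 + q : ℕ) : ℝ) ^ n'.natAbs = ((1 + q * (1 + q) : ℕ) : ℝ) ^ n.natAbs :=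
      Real.log_injOn_pos (Set.mem_Ioi.2 (by positivity)) (Set.mem_Ioi.2 (by positivity)) h6
    exact_mod_cast h7
  have h8 : Nat.Coprime (1 + q) (1 + q * (1 + q)) := by
    rw [Nat.coprime_add_mul_right_right]
    exact Nat.coprime_one_right _
  have h9 : (1 + q) ∣ (1 + q * (1 + q)) ^ n.natAbs := by
    rw [← h5]
    exact dvd_pow_self _ (Int.natAbs_ne_zero.2 hn')
  have h10 := Nat.Coprime.eq_one_of_dvd (Nat.Coprime.pow_right _ h8) h9
  omega

theorem main : Pool.Agent.H500.ME.S_NIT := by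
  intro L _ _ M t φ m j τ hM halg hev
  classical
  rw [Filter.eventually_cofinite] at hev
  let bad : Finset (HeightOneSpectrum (𝓞 L)) := hev.toFinset
  let B : ℕ := ∏ w ∈ bad, Ideal.absNorm w.asIdeal
  have hB : B ≠ 0 := Finset.prod_ne_zero_iff.2 fun w _ =>
    Ideal.absNorm_eq_zero_iff.not.2 w.ne_bot
  have hgood : ∀ w : HeightOneSpectrum (𝓞 L), (B : 𝓞 L) ∉ w.asIdeal →
      j (at1 φ w) = ((Ideal.absNorm w.asIdeal : ℕ) : ℂ) ^
        ((((m : ℝ) / 2 : ℝ) : ℂ) + (τ : ℂ) * Complex.I) := by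
    intro w hw
    have h1 : w ∉ bad := by
      intro h
      apply hw
      have h2 : ((Ideal.absNorm w.asIdeal : ℕ) : 𝓞 L) ∣ (B : 𝓞 L) :=
        Nat.cast_dvd_cast (Finset.dvd_prod_of_mem _ h)
      exact Ideal.mem_of_dvd _ h2 (Ideal.absNorm_mem w.asIdeal)
    have h2 : j (at1 φ w) / (((Ideal.absNorm w.asIdeal : ℝ) ^ ((m : ℝ) / 2) : ℝ) : ℂ) =
        ((Ideal.absNorm w.asIdeal : ℕ) : ℂ) ^ ((τ : ℂ) * Complex.I) := by
      by_contra h3
      exact h1 (hev.mem_toFinset.2 h3)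
    have hN : (0 : ℝ) < (Ideal.absNorm w.asIdeal : ℝ) :=
      Nat.cast_pos.2 (Nat.pos_of_ne_zero (Ideal.absNorm_eq_zero_iff.not.2 w.ne_bot))
    have hN0 : ((Ideal.absNorm w.asIdeal : ℕ) : ℂ) ≠ 0 :=
      Nat.cast_ne_zero.2 (Ideal.absNorm_eq_zero_iff.not.2 w.ne_bot)
    have h3 : (((Ideal.absNorm w.asIdeal : ℝ) ^ ((m : ℝ) / 2) : ℝ) : ℂ) ≠ 0 :=
      Complex.ofReal_ne_zero.2 (Real.rpow_pos_of_pos hN _).ne'
    rw [div_eq_iff h3] at h2
    rw [h2, Complex.cpow_add _ _ hN0, Complex.ofReal_cpow hN.le, Complex.ofReal_natCast, mul_comm]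
  have key : ∀ c : ℕ, ∃ n : ℤ, τ * (Module.finrank ℤ (𝓞 L) *
      Real.log ((1 + M * B * c : ℕ) : ℝ)) = n * (2 * Real.pi) := by
    intro c
    refine angle φ j t M halg ((m : ℝ) / 2) τ (1 + M * B * c) (by omega) ⟨B * c, by ring⟩ ?_
    intro w hw
    apply hgood
    intro hBw
    apply w.isPrime.ne_top
    rw [Ideal.eq_top_iff_one]
    have h1 : ((1 + M * B * c : ℕ) : 𝓞 L) - (B : 𝓞 L) * ((M : 𝓞 L) * c) ∈ w.asIdeal :=
      w.asIdeal.sub_mem hw (w.asIdeal.mul_mem_right _ hBw)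
    have h2 : ((1 + M * B * c : ℕ) : 𝓞 L) - (B : 𝓞 L) * ((M : 𝓞 L) * c) = 1 := by
      push_cast
      ring
    rwa [h2] at h1
  obtain ⟨n, hn⟩ := key 1
  obtain ⟨n', hn'⟩ := key (1 + M * B)
  rw [mul_one] at hn
  have hd : (Module.finrank ℤ (𝓞 L) : ℝ) ≠ 0 := Nat.cast_ne_zero.2 Module.finrank_pos.ne'
  have h := arith (τ * Module.finrank ℤ (𝓞 L)) (M * B)
    (Nat.mul_pos hM (Nat.pos_of_ne_zero hB)) n n' (by rw [← hn]; ring) (by rw [← hn']; ring)
  exact (mul_eq_zero.1 h).resolve_right hd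

end Pool.Agent.H253.ME.NIT
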