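import Pool.Agent.H121.ME.Iface
import Pool.Agent.H717.Z987.Wien

/-! Part of `S_wienA` (project ME of helper121): the kernels, with a weight
(generalization of `Pool/Agent/H717/Z987/WienA.lean`). -/

set_option autoImplicit false

open scoped BigOperators InnerProductSpace Topology ENNReal
open Filter MeasureTheory

namespace Pool.Agent.H253.ME

open Pool.Agent.TH369.MU (ep zk)
open Pool.Agent.H121.Z987 (wt Q)
open Pool.Agent.H121.ME (Qw Tw)
open Pool.Agent.H717.Z987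
open Pool.Agent.W883.LL (P P_nonneg P_le P_cauchy P_integral P_integrable P_cont)

/-- admissible weights -/
structure Wc (w : ℝ → ℝ) : Prop where
  c : Continuous w
  nn : ∀ E, 0 ≤ w E
  le : ∀ E, w E ≤ wt E

variable {w : ℝ → ℝ}

theorem Wc.le1 (h : Wc w) (E : ℝ) : w E ≤ 1 := (h.le E).trans (wt_le E)

theorem Wc.Qle (h : Wc w) : Qw w ≤ Q := by
  unfold Qw Q
  exact withDensity_mono (Eventually.of_forall fun E => ENNReal.ofReal_le_ofReal (h.le E))

theorem Wc.fin (h : Wc w) : IsFiniteMeasure (Qw w) := isFiniteMeasure_of_le Q h.Qle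

theorem Wc.real_le (h : Wc w) : (Qw w).real Set.univ ≤ Real.pi := by
  rw [← Q_real, measureReal_def, measureReal_def]
  exact ENNReal.toReal_mono (measure_ne_top _ _) (h.Qle _)

theorem Wc.int_eq (h : Wc w) {F : Type} [NormedAddCommGroup F] [NormedSpace ℝ F] (f : ℝ → F) :
    ∫ E, f E ∂(Qw w) = ∫ E, w E • f E := by
  unfold Qw
  rw [integral_withDensity_eq_integral_toReal_smul
    (h.c.measurable.ennreal_ofReal) (Eventually.of_forall fun _ => ENNReal.ofReal_lt_top)]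
  refine integral_congr_ae (Eventually.of_forall fun E => ?_)
  simp only
  rw [ENNReal.toReal_ofReal (h.nn _)]

theorem Wc.P_int (h : Wc w) (t ε : ℝ) (hε : 0 < ε) : Integrable (fun E => P t ε E) (Qw w) :=
  (P_intQ t ε hε).mono_measure h.Qle

theorem Wc.P_le (h : Wc w) (t ε : ℝ) (hε : 0 < ε) : ∫ E, P t ε E ∂(Qw w) ≤ Real.pi :=
  (integral_mono_measure h.Qle (Eventually.of_forall fun E => P_nonneg t ε E hε)
    (P_intQ t ε hε)).trans (P_Q_le t ε hε)

theorem ep_lim' : Tendsto ep atTop (𝓝 0) :=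
  Pool.Agent.TH369.MU.PO2.ep_tendsto.mono_right nhdsWithin_le_nhds

theorem ep_pos'' (k : ℕ) : 0 < ep k := Pool.Agent.TH369.MU.PO2.ep_pos k

theorem Wc.P_lim (h : Wc w) (t : ℝ) :
    Tendsto (fun k => ∫ E, P t (ep k) E ∂(Qw w)) atTop (𝓝 (Real.pi * w t)) := by
  have h1 : ∀ k, ∫ E, P t (ep k) E ∂(Qw w) = ∫ u : ℝ, (1 + u ^ 2)⁻¹ * w (t + ep k * u) := by
    intro k
    have hε := ep_pos'' k
    rw [h.int_eq]
    have e1 : ∫ E : ℝ, w E • P t (ep k) E = ∫ E : ℝ, w (t + E) • P t (ep k) (t + E) :=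
      (integral_add_left_eq_self (μ := volume) (fun E : ℝ => w E • P t (ep k) E) t).symm
    have e2 := Measure.integral_comp_mul_left (fun E : ℝ => w (t + E) • P t (ep k) (t + E)) (ep k)
    rw [e1]
    have e3 : ∫ E : ℝ, w (t + E) • P t (ep k) (t + E) =
        ep k • ∫ u : ℝ, w (t + ep k * u) • P t (ep k) (t + ep k * u) := by
      rw [e2, smul_smul, abs_of_pos (inv_pos.2 hε), mul_inv_cancel₀ hε.ne', one_smul]
    rw [e3, ← integral_smul]
    refine integral_congr_ae (Eventually.of_forall fun u => ?_)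
    simp only [smul_eq_mul]
    unfold P
    have h5 : 0 < 1 + u ^ 2 := by positivity
    have h7 : ((t + ep k * u) - t) ^ 2 + ep k ^ 2 = ep k ^ 2 * (1 + u ^ 2) := by ring
    rw [h7]
    field_simp
  simp_rw [h1]
  have h2 : Real.pi * w t = ∫ u : ℝ, (1 + u ^ 2)⁻¹ * w t := by
    rw [integral_mul_const, integral_univ_inv_one_add_sq]
  rw [h2]
  refine tendsto_integral_of_dominated_convergence (fun u => (1 + u ^ 2)⁻¹) (fun k => ?_)
    integrable_inv_one_add_sq (fun k => Eventually.of_forall fun u => ?_)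
    (Eventually.of_forall fun u => ?_)
  · refine Continuous.aestronglyMeasurable ?_
    refine Continuous.mul (Continuous.inv₀ (by fun_prop) fun u => by positivity) ?_
    exact h.c.comp (by fun_prop)
  · rw [Real.norm_of_nonneg (mul_nonneg (by positivity) (h.nn _))]
    exact mul_le_of_le_one_right (by positivity) (h.le1 _)
  · refine Tendsto.const_mul _ ?_
    have h3 : Tendsto (fun k => t + ep k * u) atTop (𝓝 (t + 0 * u)) :=
      (ep_lim'.mul_const u).const_add t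
    rw [zero_mul, add_zero] at h3
    exact (h.c.tendsto t).comp h3

/-- the kernel -/
noncomputable def kw (w : ℝ → ℝ) (ε t t' : ℝ) : ℂ :=
  ∫ E, (ε : ℂ) * (kp ε t E * (starRingEnd ℂ) (kp ε t' E)) ∂(Qw w)

theorem kw_int (h : Wc w) (ε t t' : ℝ) (hε : 0 < ε) :
    Integrable (fun E => (ε : ℂ) * (kp ε t E * (starRingEnd ℂ) (kp ε t' E))) (Qw w) :=
  (ka_int ε t t' hε).mono_measure h.Qle

theorem kw_le (h : Wc w) (ε t t' : ℝ) (hε : 0 < ε) : ‖kw w ε t t'‖ ≤ Real.pi := by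
  unfold kw
  refine (norm_integral_le_integral_norm _).trans ?_
  calc ∫ E, ‖(ε : ℂ) * (kp ε t E * (starRingEnd ℂ) (kp ε t' E))‖ ∂(Qw w)
      ≤ ∫ E, (P t ε E + P t' ε E) / 2 ∂(Qw w) := by
        refine integral_mono (kw_int h ε t t' hε).norm
          (((h.P_int t ε hε).add (h.P_int t' ε hε)).div_const 2) fun E => ka_aux ε t t' E hε
    _ = ((∫ E, P t ε E ∂(Qw w)) + ∫ E, P t' ε E ∂(Qw w)) / 2 := by
        rw [integral_div, integral_add (h.P_int t ε hε) (h.P_int t' ε hε)]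
    _ ≤ Real.pi := by
        have h1 := h.P_le t ε hε
        have h2 := h.P_le t' ε hε
        linarith

theorem kw_diag (w : ℝ → ℝ) (ε t : ℝ) (hε : 0 < ε) :
    kw w ε t t = ((∫ E, P t ε E ∂(Qw w) : ℝ) : ℂ) := by
  rw [← integral_complex_ofReal]
  unfold kw
  refine integral_congr_ae (Eventually.of_forall fun E => ?_)
  simp only
  rw [← kp_sq ε t E hε, Complex.mul_conj']
  push_cast
  ring

theorem kw_off (hw : Wc w) (ε t t' : ℝ) (hε : 0 < ε) (h : t ≠ t') :
    ‖kw w ε t t'‖ ≤ 2 * Real.pi * Real.sqrt ε / |t - t'| := by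
  have := hw.fin
  have hd : 0 < |t - t'| := abs_pos.2 (sub_ne_zero.2 h)
  have hs : 0 < Real.sqrt ε := Real.sqrt_pos.2 hε
  have hss : Real.sqrt ε * Real.sqrt ε = ε := Real.mul_self_sqrt hε.le
  -- `ε |t - z|⁻¹ ≤ √ε (P + 1) / 2`
  have h1 : ∀ s E : ℝ, ε * ‖kp ε s E‖ ≤ Real.sqrt ε * ((P s ε E + 1) / 2) := by
    intro s E
    have e1 := kp_sq ε s E hε
    obtain ⟨u, hu⟩ : ∃ u, u = ‖kp ε s E‖ := ⟨_, rfl⟩
    rw [← hu] at e1 ⊢
    rw [← e1]
    have e2 : ε * u = Real.sqrt ε * (Real.sqrt ε * u) := by rw [← mul_assoc, hss]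
    rw [e2]
    refine mul_le_mul_of_nonneg_left ?_ hs.le
    have e3 : ε * u ^ 2 = (Real.sqrt ε * u) ^ 2 := by rw [mul_pow, sq (Real.sqrt ε), hss]
    rw [e3]
    nlinarith [sq_nonneg (Real.sqrt ε * u - 1)]
  have h2 : ∀ E : ℝ, ‖(ε : ℂ) * (kp ε t E * (starRingEnd ℂ) (kp ε t' E))‖ ≤
      |t - t'|⁻¹ * (Real.sqrt ε * ((P t ε E + 1) / 2) + Real.sqrt ε * ((P t' ε E + 1) / 2)) := by
    intro E
    have hk1 := kp_ne ε t E hε
    have hk2 := kp_ne ε t' E hε
    have e1 : ((t - t' : ℝ) : ℂ) * (kp ε t E * kp ε t' E) = kp ε t' E - kp ε t E := by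
      unfold kp
      push_cast
      field_simp
      ring
    have e2 : |t - t'| * (‖kp ε t E‖ * ‖kp ε t' E‖) ≤ ‖kp ε t E‖ + ‖kp ε t' E‖ := by
      have := congrArg norm e1
      rw [norm_mul, norm_mul, Complex.norm_real, Real.norm_eq_abs] at this
      rw [this, add_comm]
      exact norm_sub_le _ _
    rw [norm_mul, norm_mul, RCLike.norm_conj, Complex.norm_real, Real.norm_of_nonneg hε.le]
    rw [inv_mul_eq_div, le_div_iff₀ hd]
    calc ε * (‖kp ε t E‖ * ‖kp ε t' E‖) * |t - t'|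
        = ε * (|t - t'| * (‖kp ε t E‖ * ‖kp ε t' E‖)) := by ring
      _ ≤ ε * (‖kp ε t E‖ + ‖kp ε t' E‖) := mul_le_mul_of_nonneg_left e2 hε.le
      _ = ε * ‖kp ε t E‖ + ε * ‖kp ε t' E‖ := by ring
      _ ≤ _ := add_le_add (h1 t E) (h1 t' E)
  unfold kw
  refine (norm_integral_le_integral_norm _).trans ?_
  have i1 : ∀ s : ℝ, Integrable (fun E => Real.sqrt ε * ((P s ε E + 1) / 2)) (Qw w) := fun s =>
    (((hw.P_int s ε hε).add (integrable_const _)).div_const 2).const_mul _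
  have e3 : ∀ s : ℝ, ∫ E, Real.sqrt ε * ((P s ε E + 1) / 2) ∂(Qw w) ≤ Real.sqrt ε * Real.pi := by
    intro s
    rw [integral_const_mul, integral_div, integral_add (hw.P_int s ε hε) (integrable_const _),
      integral_const, smul_eq_mul, mul_one]
    have := hw.P_le s ε hε
    have h3 := hw.real_le
    refine mul_le_mul_of_nonneg_left ?_ hs.le
    linarith
  calc ∫ E, ‖(ε : ℂ) * (kp ε t E * (starRingEnd ℂ) (kp ε t' E))‖ ∂(Qw w)
      ≤ ∫ E, |t - t'|⁻¹ * (Real.sqrt ε * ((P t ε E + 1) / 2) +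
          Real.sqrt ε * ((P t' ε E + 1) / 2)) ∂(Qw w) :=
        integral_mono (kw_int hw ε t t' hε).norm (((i1 t).add (i1 t')).const_mul _) h2
    _ = |t - t'|⁻¹ * ((∫ E, Real.sqrt ε * ((P t ε E + 1) / 2) ∂(Qw w)) +
          ∫ E, Real.sqrt ε * ((P t' ε E + 1) / 2) ∂(Qw w)) := by
        rw [integral_const_mul, integral_add (i1 t) (i1 t')]
    _ ≤ |t - t'|⁻¹ * (Real.sqrt ε * Real.pi + Real.sqrt ε * Real.pi) := by
        refine mul_le_mul_of_nonneg_left (add_le_add (e3 t) (e3 t')) (inv_nonneg.2 hd.le)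
    _ = 2 * Real.pi * Real.sqrt ε / |t - t'| := by ring

open Classical in
theorem kw_lim (hw : Wc w) (t t' : ℝ) :
    Tendsto (fun k => kw w (ep k) t t') atTop (𝓝 (if t = t' then ((Real.pi * w t : ℝ) : ℂ) else 0)) := by
  have hep := ep_lim'
  have hpos := ep_pos''
  by_cases h : t = t'
  · subst h
    rw [if_pos rfl]
    simp_rw [fun k => kw_diag w (ep k) t (hpos k)]
    exact (Complex.continuous_ofReal.tendsto _).comp (hw.P_lim t)
  · rw [if_neg h]
    rw [tendsto_zero_iff_norm_tendsto_zero]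
    have h2 : Tendsto (fun k => 2 * Real.pi * Real.sqrt (ep k) / |t - t'|) atTop (𝓝 0) := by
      have : Tendsto (fun k => 2 * Real.pi * Real.sqrt (ep k) / |t - t'|) atTop
          (𝓝 (2 * Real.pi * Real.sqrt 0 / |t - t'|)) :=
        ((((Real.continuous_sqrt.tendsto 0).comp hep).const_mul _).div_const _)
      simpa using this
    exact squeeze_zero (fun k => norm_nonneg _) (fun k => kw_off hw (ep k) t t' (hpos k) h) h2

end Pool.Agent.H253.ME
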