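import Pool.Agent.H253.ME.WA

/-! Part of `S_wienA` (project ME of helper121): the convergence of the averages, with a weight
(generalization of `Pool/Agent/H717/Z987/WienB.lean`). -/

set_option autoImplicit false

open scoped BigOperators InnerProductSpace Topology ENNReal
open Filter MeasureTheory

namespace Pool.Agent.H253.ME

open Pool.Agent.TH369.MU (ep zk)
open Pool.Agent.H121.ME (Qw Tw)
open Pool.Agent.H717.Z987 (kp kp_ne kp_cont2 kp_cont_E kp_cont_t kp_sq kp_le Fm kp_int Fm_le Fm_meas ep_pos' ep_lim fin_atoms Fm_atom)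
open Pool.Agent.W883.LL (P P_nonneg P_le P_cauchy P_integral P_integrable P_cont)
open Pool.Agent.TH794.LL2 (Po Po_int Po_im)

variable {w : ℝ → ℝ}

/-- the averages of the products of two Borel transforms -/
noncomputable def Jw (w : ℝ → ℝ) (μ ν : Measure ℝ) (k : ℕ) : ℂ :=
  ∫ E, (ep k : ℂ) * (Fm μ (ep k) E * (starRingEnd ℂ) (Fm ν (ep k) E)) ∂(Qw w)

theorem Jw_eq (hw : Wc w) (μ ν : Measure ℝ) [IsFiniteMeasure μ] [IsFiniteMeasure ν] (k : ℕ) :
    Jw w μ ν k = ∫ p : ℝ × ℝ, kw w (ep k) p.1 p.2 ∂(μ.prod ν) := by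
  have := hw.fin
  have hε := ep_pos' k
  obtain ⟨ε, he⟩ : ∃ ε, ε = ep k := ⟨_, rfl⟩
  unfold Jw
  rw [← he] at hε ⊢
  have h1 : ∀ E, (ε : ℂ) * (Fm μ ε E * (starRingEnd ℂ) (Fm ν ε E)) =
      ∫ p : ℝ × ℝ, (ε : ℂ) * (kp ε p.1 E * (starRingEnd ℂ) (kp ε p.2 E)) ∂(μ.prod ν) := by
    intro E
    rw [integral_const_mul, integral_prod_mul (fun t => kp ε t E)
      (fun t => (starRingEnd ℂ) (kp ε t E)), integral_conj]
    rfl
  simp_rw [h1]
  rw [integral_integral_swap]
  · rfl
  · refine Integrable.of_bound (C := ε * (1 / ε * (1 / ε))) ?_ (Eventually.of_forall fun p => ?_)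
    · refine Continuous.aestronglyMeasurable ?_
      have c1 : Continuous fun p : ℝ × ℝ × ℝ => kp ε p.2.1 p.1 :=
        (kp_cont2 ε hε).comp (by fun_prop : Continuous fun p : ℝ × ℝ × ℝ => (p.2.1, p.1))
      have c2 : Continuous fun p : ℝ × ℝ × ℝ => kp ε p.2.2 p.1 :=
        (kp_cont2 ε hε).comp (by fun_prop : Continuous fun p : ℝ × ℝ × ℝ => (p.2.2, p.1))
      exact continuous_const.mul (c1.mul (Complex.continuous_conj.comp c2))
    · simp only [Function.uncurry]
      rw [norm_mul, norm_mul, RCLike.norm_conj, Complex.norm_real, Real.norm_of_nonneg hε.le]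
      have h1 := kp_le ε p.2.1 p.1 hε
      have h2 := kp_le ε p.2.2 p.1 hε
      gcongr

theorem kw_meas (hw : Wc w) (ε : ℝ) (hε : 0 < ε) : StronglyMeasurable fun p : ℝ × ℝ => kw w ε p.1 p.2 := by
  have := hw.fin
  unfold kw
  have h : StronglyMeasurable fun p : (ℝ × ℝ) × ℝ =>
      (ε : ℂ) * (kp ε p.1.1 p.2 * (starRingEnd ℂ) (kp ε p.1.2 p.2)) := by
    refine Continuous.stronglyMeasurable ?_
    have c1 : Continuous fun p : (ℝ × ℝ) × ℝ => kp ε p.1.1 p.2 :=
      (kp_cont2 ε hε).comp (by fun_prop : Continuous fun p : (ℝ × ℝ) × ℝ => (p.1.1, p.2))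
    have c2 : Continuous fun p : (ℝ × ℝ) × ℝ => kp ε p.1.2 p.2 :=
      (kp_cont2 ε hε).comp (by fun_prop : Continuous fun p : (ℝ × ℝ) × ℝ => (p.1.2, p.2))
    exact continuous_const.mul (c1.mul (Complex.continuous_conj.comp c2))
  exact h.integral_prod_right

open Classical in
/-- the limit kernel -/
noncomputable def lw (w : ℝ → ℝ) (t t' : ℝ) : ℂ := if t = t' then ((Real.pi * w t : ℝ) : ℂ) else 0

theorem Jw_lim0 (hw : Wc w) (μ ν : Measure ℝ) [IsFiniteMeasure μ] [IsFiniteMeasure ν] :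
    Tendsto (Jw w μ ν) atTop (𝓝 (∫ p : ℝ × ℝ, lw w p.1 p.2 ∂(μ.prod ν))) := by
  have h : Jw w μ ν = fun k => ∫ p : ℝ × ℝ, kw w (ep k) p.1 p.2 ∂(μ.prod ν) := by
    funext k
    exact Jw_eq hw μ ν k
  rw [h]
  refine tendsto_integral_of_dominated_convergence (fun _ => Real.pi)
    (fun k => (kw_meas hw (ep k) (ep_pos' k)).aestronglyMeasurable) (integrable_const _)
    (fun k => Eventually.of_forall fun p => kw_le hw _ _ _ (ep_pos' k))
    (Eventually.of_forall fun p => ?_)
  have := kw_lim hw p.1 p.2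
  unfold lw
  convert this using 2

theorem lw_int (hw : Wc w) (μ ν : Measure ℝ) [IsFiniteMeasure μ] [IsFiniteMeasure ν] :
    Integrable (fun p : ℝ × ℝ => lw w p.1 p.2) (μ.prod ν) := by
  have hm : Measurable fun p : ℝ × ℝ => lw w p.1 p.2 := by
    unfold lw
    refine Measurable.ite (measurableSet_eq_fun measurable_fst measurable_snd) ?_ measurable_const
    exact Complex.measurable_ofReal.comp ((hw.c.measurable.comp measurable_fst).const_mul _)
  refine Integrable.of_bound (C := Real.pi) hm.aestronglyMeasurable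
    (Eventually.of_forall fun p => ?_)
  unfold lw
  split_ifs
  · rw [Complex.norm_real, Real.norm_of_nonneg (mul_nonneg Real.pi_pos.le (hw.nn _))]
    have := hw.le1 p.1
    nlinarith [Real.pi_pos]
  · simp [Real.pi_pos.le]

/-- the limit as a sum over the atoms -/
theorem lw_sum (hw : Wc w) (μ ν : Measure ℝ) [IsFiniteMeasure μ] [IsFiniteMeasure ν] (D : Set ℝ)
    (hD : D.Countable) (hν : ∀ t, t ∉ D → ν {t} = 0) :
    ∫ p : ℝ × ℝ, lw w p.1 p.2 ∂(μ.prod ν) =
      ((Real.pi * ∑' t : D, w t * (μ.real {(t : ℝ)} * ν.real {(t : ℝ)}) : ℝ) : ℂ) := by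
  rw [integral_prod _ (lw_int hw μ ν)]
  have h1 : ∀ t : ℝ, ∫ t', lw w t t' ∂ν = ((Real.pi * w t * ν.real {t} : ℝ) : ℂ) := by
    intro t
    have : (fun t' => lw w t t') = Set.indicator {t} (fun _ => ((Real.pi * w t : ℝ) : ℂ)) := by
      funext t'
      unfold lw
      by_cases h : t = t'
      · subst h
        simp
      · rw [if_neg h, Set.indicator_of_notMem]
        simpa using fun h' => h h'.symm
    rw [this, integral_indicator (measurableSet_singleton t), setIntegral_const]
    rw [Complex.real_smul]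
    push_cast
    ring
  simp_rw [h1]
  rw [integral_complex_ofReal]
  congr 1
  have h2 : ∫ t, Real.pi * w t * ν.real {t} ∂μ = ∫ t in D, Real.pi * w t * ν.real {t} ∂μ := by
    rw [← integral_indicator hD.measurableSet]
    refine integral_congr_ae (Eventually.of_forall fun t => ?_)
    by_cases ht : t ∈ D
    · rw [Set.indicator_of_mem ht]
    · rw [Set.indicator_of_notMem ht]
      simp only
      rw [measureReal_def, hν t ht]
      simp
  rw [h2]
  have hint : IntegrableOn (fun t => Real.pi * w t * ν.real {t}) D μ := by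
    have hi := (lw_int hw μ ν).integral_prod_left
    simp_rw [h1] at hi
    have hi2 : Integrable (fun t => Real.pi * w t * ν.real {t}) μ := by
      have := hi.re
      simpa using this
    exact hi2.integrableOn
  rw [setIntegral_countable _ hD hint, ← tsum_mul_left]
  refine tsum_congr fun t => ?_
  rw [smul_eq_mul]
  ring

theorem watoms (hw : Wc w) (μ ν : Measure ℝ) [IsFiniteMeasure μ] [IsFiniteMeasure ν] (D : Set ℝ)
    (hD : D.Countable) : Summable fun t : D => w t * (μ.real {(t : ℝ)} * ν.real {(t : ℝ)}) := by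
  have := hD.to_subtype
  have h1 : Summable fun t : D => μ.real {(t : ℝ)} := by
    have hs : (∑' t : D, μ {(t : ℝ)}) ≠ ∞ := by
      have := measure_iUnion (μ := μ) (f := fun t : D => {(t : ℝ)})
        (fun a b hab => by
          simp only [Function.onFun, Set.disjoint_singleton]
          exact fun h => hab (Subtype.ext h)) (fun t => measurableSet_singleton _)
      rw [← this]
      exact measure_ne_top _ _
    exact ENNReal.summable_toReal hs
  refine Summable.of_nonneg_of_le (fun t => ?_) (fun t => ?_) (h1.mul_right (ν.real Set.univ))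
  · exact mul_nonneg (hw.nn _) (mul_nonneg measureReal_nonneg measureReal_nonneg)
  · have h2 := hw.le1 (t : ℝ)
    have h3 : ν.real {(t : ℝ)} ≤ ν.real Set.univ := measureReal_mono (Set.subset_univ _)
    have h4 : 0 ≤ μ.real {(t : ℝ)} := measureReal_nonneg
    have h5 : 0 ≤ ν.real {(t : ℝ)} := measureReal_nonneg
    have h6 : 0 ≤ w (t : ℝ) := (hw.nn _)
    calc w (t : ℝ) * (μ.real {(t : ℝ)} * ν.real {(t : ℝ)})
        ≤ 1 * (μ.real {(t : ℝ)} * ν.real Set.univ) := by gcongr
      _ = _ := one_mul _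

/-- the difference of two Borel transforms -/
theorem wdiff_lim (hw : Wc w) (μ ν : Measure ℝ) [IsFiniteMeasure μ] [IsFiniteMeasure ν] (D : Set ℝ)
    (hD : D.Countable) (hμ : ∀ t, t ∉ D → μ {t} = 0) (hν : ∀ t, t ∉ D → ν {t} = 0) :
    Tendsto (fun k => ∫ E, ep k * ‖Fm μ (ep k) E - Fm ν (ep k) E‖ ^ 2 ∂(Qw w)) atTop
      (𝓝 (Real.pi * ∑' t : D, w t * (μ.real {(t : ℝ)} - ν.real {(t : ℝ)}) ^ 2)) := by
  have := hw.fin
  have hI : ∀ (α β : Measure ℝ) [IsFiniteMeasure α] [IsFiniteMeasure β] (k : ℕ),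
      Integrable (fun E => (ep k : ℂ) * (Fm α (ep k) E * (starRingEnd ℂ) (Fm β (ep k) E))) (Qw w) := by
    intro α β _ _ k
    have hε := ep_pos' k
    refine Integrable.of_bound (C := ep k * ((1 / ep k * α.real Set.univ) *
      (1 / ep k * β.real Set.univ))) ?_ (Eventually.of_forall fun E => ?_)
    · exact (stronglyMeasurable_const.mul ((Fm_meas α _ hε).mul
        (Complex.continuous_conj.comp_stronglyMeasurable (Fm_meas β _ hε)))).aestronglyMeasurable
    · rw [norm_mul, norm_mul, RCLike.norm_conj, Complex.norm_real, Real.norm_of_nonneg hε.le]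
      have h1 := Fm_le α (ep k) E hε
      have h2 := Fm_le β (ep k) E hε
      have h3 : (0 : ℝ) ≤ 1 / ep k * α.real Set.univ :=
        mul_nonneg (by positivity) measureReal_nonneg
      gcongr
  have h1 : ∀ k, ((∫ E, ep k * ‖Fm μ (ep k) E - Fm ν (ep k) E‖ ^ 2 ∂(Qw w) : ℝ) : ℂ) =
      Jw w μ μ k - Jw w μ ν k - Jw w ν μ k + Jw w ν ν k := by
    intro k
    rw [← integral_complex_ofReal]
    unfold Jw
    have g1 := integral_sub (hI μ μ k) (hI μ ν k)
    have g2 := integral_sub ((hI μ μ k).sub (hI μ ν k)) (hI ν μ k)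
    have g3 := integral_add (((hI μ μ k).sub (hI μ ν k)).sub (hI ν μ k)) (hI ν ν k)
    simp only [Pi.sub_apply, Pi.add_apply] at g1 g2 g3
    rw [← g1, ← g2, ← g3]
    refine integral_congr_ae (Eventually.of_forall fun E => ?_)
    simp only
    push_cast
    rw [← Complex.mul_conj', map_sub]
    ring
  have h2 : Tendsto (fun k => Jw w μ μ k - Jw w μ ν k - Jw w ν μ k + Jw w ν ν k) atTop
      (𝓝 (((Real.pi * ∑' t : D, w t * (μ.real {(t : ℝ)} - ν.real {(t : ℝ)}) ^ 2 : ℝ) : ℂ))) := by
    have e := (((Jw_lim0 hw μ μ).sub (Jw_lim0 hw μ ν)).sub (Jw_lim0 hw ν μ)).add (Jw_lim0 hw ν ν)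
    rw [lw_sum hw μ μ D hD hμ, lw_sum hw μ ν D hD hν, lw_sum hw ν μ D hD hμ, lw_sum hw ν ν D hD hν] at e
    convert e using 2
    rw [← Complex.ofReal_sub, ← Complex.ofReal_sub, ← Complex.ofReal_add]
    congr 1
    rw [← mul_sub, ← mul_sub, ← mul_add]
    congr 1
    have s1 := watoms hw μ μ D hD
    have s2 := watoms hw μ ν D hD
    have s3 := watoms hw ν μ D hD
    have s4 := watoms hw ν ν D hD
    rw [← s1.tsum_sub s2, ← (s1.sub s2).tsum_sub s3, ← ((s1.sub s2).sub s3).tsum_add s4]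
    refine tsum_congr fun t => ?_
    ring
  have h3 : Tendsto (fun k => ((∫ E, ep k * ‖Fm μ (ep k) E - Fm ν (ep k) E‖ ^ 2 ∂(Qw w) : ℝ) : ℂ)) atTop
      (𝓝 (((Real.pi * ∑' t : D, w t * (μ.real {(t : ℝ)} - ν.real {(t : ℝ)}) ^ 2 : ℝ) : ℂ))) := by
    simp_rw [h1]
    exact h2
  have h4 := (Complex.continuous_re.tendsto _).comp h3
  simpa [Function.comp_def] using h4

/-- the average of the Poisson integrals -/
theorem Po_Qw (hw : Wc w) (m : Measure ℝ) [IsFiniteMeasure m] :
    (∀ k, Integrable (fun E => Po m E (ep k)) (Qw w)) ∧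
    Tendsto (fun k => ∫ E, Po m E (ep k) ∂(Qw w)) atTop (𝓝 (∫ t, Real.pi * w t ∂m)) := by
  have := hw.fin
  have hP : ∀ E ε, Po m E ε = ∫ t, P t ε E ∂m := by
    intro E ε
    unfold Po P
    refine integral_congr_ae (Eventually.of_forall fun t => ?_)
    simp only
    congr 2
    ring
  have hc : ∀ k, Continuous fun p : ℝ × ℝ => P p.2 (ep k) p.1 := by
    intro k
    have := ep_pos' k
    unfold P
    refine Continuous.div continuous_const (by fun_prop) fun p => ?_
    positivity
  have hprod : ∀ k, Integrable (fun p : ℝ × ℝ => P p.2 (ep k) p.1) ((Qw w).prod m) := by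
    intro k
    refine Integrable.of_bound (C := 1 / ep k) (hc k).aestronglyMeasurable
      (Eventually.of_forall fun p => ?_)
    rw [Real.norm_of_nonneg (P_nonneg _ _ _ (ep_pos' k))]
    exact P_le _ _ _ (ep_pos' k)
  constructor
  · intro k
    simp_rw [hP]
    exact (hprod k).integral_prod_left
  · have h1 : ∀ k, ∫ E, Po m E (ep k) ∂(Qw w) =
        ∫ t, (∫ E, P t (ep k) E ∂(Qw w)) ∂m := by
      intro k
      simp_rw [hP]
      exact integral_integral_swap (hprod k)
    simp_rw [h1]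
    refine tendsto_integral_of_dominated_convergence (fun _ => Real.pi) (fun k => ?_)
      (integrable_const _) (fun k => Eventually.of_forall fun t => ?_)
      (Eventually.of_forall fun t => hw.P_lim t)
    · have h : StronglyMeasurable fun p : ℝ × ℝ => P p.1 (ep k) p.2 :=
        ((hc k).comp continuous_swap).stronglyMeasurable
      exact h.integral_prod_right.aestronglyMeasurable
    · rw [Real.norm_of_nonneg (integral_nonneg fun E => P_nonneg _ _ _ (ep_pos' k))]
      exact hw.P_le t (ep k) (ep_pos' k)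

end Pool.Agent.H253.ME
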